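import Pool.Agent.MP_856573_co.H74.Bas

/-! Row AL: a path absorbs the components that hang on it. -/

namespace Pool.Agent.MP_856573_co.H74

open Set
open Pool.Agent.MP_31805c_co.H47 (Mac)
open Pool.Agent.MP_31805c_co.H93 (Conn)

namespace ALx

variable {V : Type} {G : SimpleGraph V} {W : Set V} {q o : ℕ → V} {m r : ℕ} {S : Set V} {t : V}

/-- The component of `v` off the path is adjacent to `q a`. -/
def A (G : SimpleGraph V) (W : Set V) (q : ℕ → V) (m : ℕ) (v : V) (a : ℕ) : Prop :=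
  v ∈ W \ q '' Iic m ∧ ∃ u, Conn G (W \ q '' Iic m) v u ∧ G.Adj u (q a)

def Lk (G : SimpleGraph V) (W : Set V) (q : ℕ → V) (m a b : ℕ) : Prop :=
  G.Adj (q a) (q b) ∨ ∃ v, A G W q m v a ∧ A G W q m v b

def Ct (G : SimpleGraph V) (W : Set V) (q : ℕ → V) (m k : ℕ) : Prop :=
  ∀ a b, a < k → k < b → b ≤ m → ¬Lk G W q m a b

/-- The part of `W` after the index `k`. -/
def Wk (G : SimpleGraph V) (W : Set V) (q : ℕ → V) (m k : ℕ) : Set V :=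
  q '' Icc k m ∪ {v | ∃ b, k < b ∧ b ≤ m ∧ A G W q m v b}

/-- The components that join `q k`, `q k'` and the set `O`. -/
def Ks (G : SimpleGraph V) (W : Set V) (q : ℕ → V) (m : ℕ) (O : Set V) (k k' : ℕ) : Set V :=
  {v | A G W q m v k ∧ A G W q m v k' ∧ (At G (W \ q '' Iic m) O v).Nonempty}

def Rg (G : SimpleGraph V) (W : Set V) (q : ℕ → V) (m : ℕ) (O : Set V) (k k' : ℕ) : Set V :=
  q '' Icc k k' ∪ ({v | ∃ a, k < a ∧ a < k' ∧ A G W q m v a} ∪ Ks G W q m O k k')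

def Bn (G : SimpleGraph V) (S O : Set V) (t : V) (X P : Set V) (v : V) : Prop :=
  (At G (X \ P) P v).ncard + tc G (X \ P) S v + (At G (X \ P) O v).ncard ≤ 3 ∧
    (v = t → (At G (X \ P) P v).ncard + tc G (X \ P) S v + (At G (X \ P) O v).ncard ≤ 2)

theorem A.conn {v u : V} {a : ℕ} (h : A G W q m v a) (hc : Conn G (W \ q '' Iic m) v u) :
    A G W q m u a :=
  let ⟨w, h1, h2⟩ := h.2
  ⟨hc.mem h.1, w, hc.symm.trans h1, h2⟩

theorem A.of_adj {v : V} {a : ℕ} (hv : v ∈ W \ q '' Iic m) (h : G.Adj v (q a)) : A G W q m v a :=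
  ⟨hv, v, Conn.refl _ _, h⟩

theorem A.step {v u : V} {a : ℕ} (h : A G W q m v a) (hu : u ∈ W \ q '' Iic m) (hc : G.Adj v u) :
    A G W q m u a := h.conn (Conn.adj hc h.1 hu)

theorem Ks.conn {O : Set V} {k k' : ℕ} {v u : V} (h : v ∈ Ks G W q m O k k')
    (hc : Conn G (W \ q '' Iic m) v u) : u ∈ Ks G W q m O k k' :=
  ⟨h.1.conn hc, h.2.1.conn hc, At.conn hc ▸ h.2.2⟩

/-- An interval of the path together with components attached to it is connected. -/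
theorem cn_re (pq : Pa G q m) {J : Set ℕ} (hJ : J.OrdConnected) (hm : ∀ i ∈ J, i ≤ m) {Y : Set V}
    (h1 : ∀ v ∈ Y, ∀ u, Conn G (W \ q '' Iic m) v u → u ∈ Y)
    (h2 : ∀ v ∈ Y, ∃ a ∈ J, A G W q m v a) : Cn G (q '' J ∪ Y) := by
  have key : ∀ x ∈ q '' J ∪ Y, ∃ y ∈ q '' J, Conn G (q '' J ∪ Y) x y := by
    rintro x (hx | hx)
    · exact ⟨x, hx, Conn.refl _ _⟩
    · obtain ⟨a, ha, -, u, h3, h4⟩ := h2 x hx
      exact ⟨q a, ⟨a, ha, rfl⟩, ((Conn.comp h3).mono fun z hz => Or.inr (h1 x hx z hz)).trans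
        (Conn.adj h4 (Or.inr (h1 x hx u h3)) (Or.inl ⟨a, ha, rfl⟩))⟩
  intro x hx y hy
  obtain ⟨x', hx', c1⟩ := key x hx
  obtain ⟨y', hy', c2⟩ := key y hy
  exact c1.trans (((pq.cn hJ hm x' hx' y' hy').mono subset_union_left).trans c2.symm)

theorem dq {J : Set ℕ} (hm : ∀ i ∈ J, i ≤ m) {Y : Set V} (hY : Y ⊆ W \ q '' Iic m) :
    Disjoint (q '' J) Y := by
  rw [disjoint_left]
  rintro _ ⟨i, hi, rfl⟩ h
  exact (hY h).2 ⟨i, hm i hi, rfl⟩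

theorem sa_q (pq : Pa G q m) {X Y : Set V} {i : ℕ} (hi : i < m) (h1 : q i ∈ X)
    (h2 : q (i + 1) ∈ Y) : SA G X Y := ⟨_, h1, _, h2, pq.adj i hi⟩

theorem sa_s {X : Set V} {x : V} (h : SA G S {x}) (hx : x ∈ X) : SA G X S :=
  (h.mono Subset.rfl (singleton_subset_iff.2 hx)).symm

theorem sa_lk {X Y : Set V} {a b : ℕ} (h : Lk G W q m a b) (h1 : q a ∈ X) (h2 : q b ∈ Y)
    (h3 : ∀ v, A G W q m v a → A G W q m v b → v ∈ X) : SA G X Y := by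
  rcases h with h | ⟨v, ha, hb⟩
  · exact ⟨_, h1, _, h2, h⟩
  · obtain ⟨u, c, hu⟩ := hb.2
    exact ⟨u, h3 u (ha.conn c) (hb.conn c), _, h2, hu⟩

variable [Fintype V] [DecidableEq V]

theorem qW (h : AH G W q m o r S t) {J : Set ℕ} (hm : ∀ i ∈ J, i ≤ m) : q '' J ⊆ W := by
  rintro _ ⟨i, hi, rfl⟩
  exact h.qW i (hm i hi)

theorem dWo (h : AH G W q m o r S t) {X : Set V} (hX : X ⊆ W) {J : Set ℕ}
    (hm : ∀ i ∈ J, i ≤ r) : Disjoint X (o '' J) := by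
  rw [disjoint_right]
  rintro _ ⟨i, hi, rfl⟩ hx
  exact h.oW i (hm i hi) (hX hx)

theorem dWs (h : AH G W q m o r S t) {X : Set V} (hX : X ⊆ W) : Disjoint X S :=
  (h.dS.mono_right hX).symm

theorem dos (h : AH G W q m o r S t) {J : Set ℕ} (hm : ∀ i ∈ J, i ≤ r) : Disjoint (o '' J) S := by
  rw [disjoint_left]
  rintro _ ⟨i, hi, rfl⟩
  exact h.oS i (hm i hi)

theorem cnO (h : AH G W q m o r S t) : Cn G (o '' Iic r) := h.po.cn ordConnected_Iic fun _ h => h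

/-- The far end of the longest link from a cut is a cut. -/
theorem ct_next (h : AH G W q m o r S t) {k k' : ℕ} (hk : Ct G W q m k) (hkk : k < k')
    (hl : Lk G W q m k k') (hmax : ∀ b, k' < b → b ≤ m → ¬Lk G W q m k b) : Ct G W q m k' := by
  intro a b hak hkb hb hab
  rcases lt_trichotomy a k with h1 | rfl | h1
  · exact hk a b h1 (by omega) hb hab
  · exact hmax b hkb hb hab
  have m1 : ∀ i ∈ Iic k, i ≤ m := fun i (hi : i ≤ k) => by omega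
  have m2 : ∀ i ∈ Ioc k a, i ≤ m := fun i hi => by have := hi.2; omega
  have m3 : ∀ i ∈ Ioc a k', i ≤ m := fun i hi => by have := hi.2; omega
  have m4 : ∀ i ∈ Ioc k' m, i ≤ m := fun i hi => hi.2
  have y1 : {v | A G W q m v k} ⊆ W \ q '' Iic m := fun v hv => hv.1
  have y2 : {v | A G W q m v a ∧ A G W q m v b} ⊆ W \ q '' Iic m := fun v hv => hv.1.1
  have w1 : q '' Iic k ∪ {v | A G W q m v k} ⊆ W := union_subset (qW h m1) fun v hv => hv.1.1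
  have w2 : q '' Ioc k a ∪ {v | A G W q m v a ∧ A G W q m v b} ⊆ W :=
    union_subset (qW h m2) fun v hv => hv.1.1.1
  have oo : ∀ i ∈ Iic r, i ≤ r := fun _ h => h
  refine k5 h.mac (q '' Iic k ∪ {v | A G W q m v k})
    (q '' Ioc k a ∪ {v | A G W q m v a ∧ A G W q m v b}) (q '' Ioc a k')
    (q '' Ioc k' m ∪ o '' Iic r) S
    (cn_re h.pq ordConnected_Iic m1 (fun v hv u c => hv.conn c) fun v hv => ⟨k, le_refl k, hv⟩)
    (cn_re h.pq ordConnected_Ioc m2 (fun v hv u c => ⟨hv.1.conn c, hv.2.conn c⟩)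
      fun v hv => ⟨a, ⟨h1, le_refl a⟩, hv.1⟩)
    (h.pq.cn ordConnected_Ioc m3)
    ((h.pq.cn ordConnected_Ioc m4).union (cnO h)
      ⟨_, ⟨m, ⟨by omega, le_refl m⟩, rfl⟩, _, ⟨r, le_refl r, rfl⟩, h.lm⟩) h.cS
    ?_ ?_ ?_ (dWs h w1) ?_ ?_ (dWs h w2) ?_ (dWs h (qW h m3)) ?_
    (sa_q h.pq (i := k) (by omega) (Or.inl ⟨k, le_refl k, rfl⟩)
      (Or.inl ⟨k + 1, ⟨by omega, h1⟩, rfl⟩))
    (sa_lk hl (Or.inl ⟨k, le_refl k, rfl⟩) ⟨k', ⟨hak, le_refl k'⟩, rfl⟩ fun v hv _ => Or.inr hv)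
    ⟨_, Or.inl ⟨0, Nat.zero_le k, rfl⟩, _, Or.inr ⟨0, Nat.zero_le r, rfl⟩, h.l0⟩
    (sa_s (h.sq k (by omega)) (Or.inl ⟨k, le_refl k, rfl⟩))
    (sa_q h.pq (i := a) (by omega) (Or.inl ⟨a, ⟨h1, le_refl a⟩, rfl⟩) ⟨a + 1, ⟨by omega, hak⟩, rfl⟩)
    (sa_lk hab (Or.inl ⟨a, ⟨h1, le_refl a⟩, rfl⟩) (Or.inl ⟨b, ⟨hkb, hb⟩, rfl⟩)
      fun v h1 h2 => Or.inr ⟨h1, h2⟩)
    (sa_s (h.sq a (by omega)) (Or.inl ⟨a, ⟨h1, le_refl a⟩, rfl⟩))
    (sa_q h.pq (i := k') (by omega) ⟨k', ⟨hak, le_refl k'⟩, rfl⟩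
      (Or.inl ⟨k' + 1, ⟨by omega, by omega⟩, rfl⟩))
    (sa_s (h.sq k' (by omega)) ⟨k', ⟨hak, le_refl k'⟩, rfl⟩)
    (sa_s h.so (Or.inr ⟨0, Nat.zero_le r, rfl⟩))
  · rw [disjoint_union_left, disjoint_union_right, disjoint_union_right]
    exact ⟨⟨h.pq.disj m1 m2 fun i (hi : i ≤ k) hj => by have := hj.1; omega, dq m1 y2⟩,
      (dq m2 y1).symm, disjoint_left.2 fun v hv hv' => hmax b hkb hb (Or.inr ⟨v, hv, hv'.2⟩)⟩
  · rw [disjoint_union_left]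
    exact ⟨h.pq.disj m1 m3 fun i (hi : i ≤ k) hj => by have := hj.1; omega, (dq m3 y1).symm⟩
  · rw [disjoint_union_right, disjoint_union_left]
    exact ⟨⟨h.pq.disj m1 m4 fun i (hi : i ≤ k) hj => by have := hj.1; omega, (dq m4 y1).symm⟩,
      dWo h w1 oo⟩
  · rw [disjoint_union_left]
    exact ⟨h.pq.disj m2 m3 fun i hi hj => by have := hi.2; have := hj.1; omega, (dq m3 y2).symm⟩
  · rw [disjoint_union_right, disjoint_union_left]
    exact ⟨⟨h.pq.disj m2 m4 fun i hi hj => by have := hi.2; have := hj.1; omega, (dq m4 y2).symm⟩,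
      dWo h w2 oo⟩
  · rw [disjoint_union_right]
    exact ⟨h.pq.disj m3 m4 fun i hi hj => by have := hi.2; have := hj.1; omega,
      dWo h (qW h m3) oo⟩
  · rw [disjoint_union_left]
    exact ⟨dWs h (qW h m4), dos h oo⟩

/-- Under a link only the spanning components see the other path. -/
theorem only_ks (h : AH G W q m o r S t) {k k' a x : ℕ} (hka : k < a) (hak : a < k')
    (hk' : k' ≤ m) (hl : Lk G W q m k k') {u : V} (hu : u = q a ∨ A G W q m u a) (hx : x ≤ r)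
    (hux : G.Adj u (o x)) : u ∈ Ks G W q m (o '' Iic r) k k' := by
  by_contra hn
  have m1 : ∀ i ∈ Iio a, i ≤ m := fun i (hi : i < a) => by omega
  have m2 : ∀ i ∈ ({a} : Set ℕ), i ≤ m := fun i (hi : i = a) => by omega
  have m3 : ∀ i ∈ Ioc a m, i ≤ m := fun i hi => hi.2
  have oo : ∀ i ∈ Iic r, i ≤ r := fun _ h => h
  have y1 : {v | A G W q m v k ∧ A G W q m v k'} ⊆ W \ q '' Iic m := fun v hv => hv.1.1
  have y2 : {w | u ∈ W \ q '' Iic m ∧ Conn G (W \ q '' Iic m) u w} ⊆ W \ q '' Iic m :=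
    fun v hv => hv.2.mem hv.1
  have w1 : q '' Iio a ∪ {v | A G W q m v k ∧ A G W q m v k'} ⊆ W :=
    union_subset (qW h m1) fun v hv => hv.1.1.1
  have w2 : q '' {a} ∪ {w | u ∈ W \ q '' Iic m ∧ Conn G (W \ q '' Iic m) u w} ⊆ W :=
    union_subset (qW h m2) fun v hv => (y2 hv).1
  obtain ⟨a', rfl⟩ : ∃ a', a = a' + 1 := ⟨a - 1, by omega⟩
  refine k5 h.mac (q '' Iio (a' + 1) ∪ {v | A G W q m v k ∧ A G W q m v k'})
    (q '' {a' + 1} ∪ {w | u ∈ W \ q '' Iic m ∧ Conn G (W \ q '' Iic m) u w})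
    (q '' Ioc (a' + 1) m) (o '' Iic r) S
    (cn_re h.pq ordConnected_Iio m1 (fun v hv u c => ⟨hv.1.conn c, hv.2.conn c⟩)
      fun v hv => ⟨k, hka, hv.1⟩)
    (cn_re h.pq ordConnected_singleton m2 (fun v hv w c => ⟨hv.1, hv.2.trans c⟩)
      fun v hv => ⟨_, rfl, (hu.resolve_left fun e =>
        hv.1.2 ⟨_, show a' + 1 ≤ m by omega, e.symm⟩).conn hv.2⟩)
    (h.pq.cn ordConnected_Ioc m3) (cnO h) h.cS
    ?_ ?_ (dWo h w1 oo) (dWs h w1) ?_ (dWo h w2 oo) (dWs h w2) (dWo h (qW h m3) oo)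
    (dWs h (qW h m3)) (dos h oo)
    (sa_q h.pq (i := a') (by omega) (Or.inl ⟨a', Nat.lt_succ_self _, rfl⟩) (Or.inl ⟨_, rfl, rfl⟩))
    (sa_lk hl (Or.inl ⟨k, hka, rfl⟩) ⟨k', ⟨hak, hk'⟩, rfl⟩ fun v h1 h2 => Or.inr ⟨h1, h2⟩)
    ⟨_, Or.inl ⟨0, Nat.succ_pos _, rfl⟩, _, ⟨0, Nat.zero_le r, rfl⟩, h.l0⟩
    (sa_s (h.sq k (by omega)) (Or.inl ⟨k, hka, rfl⟩))
    (sa_q h.pq (i := a' + 1) (by omega) (Or.inl ⟨_, rfl, rfl⟩) ⟨_, ⟨by omega, by omega⟩, rfl⟩)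
    ⟨u, hu.elim (fun e => Or.inl ⟨_, rfl, e.symm⟩) fun e => Or.inr ⟨e.1, Conn.refl _ _⟩, _,
      ⟨x, hx, rfl⟩, hux⟩
    (sa_s (h.sq (a' + 1) (by omega)) (Or.inl ⟨_, rfl, rfl⟩))
    ⟨_, ⟨m, ⟨by omega, le_refl m⟩, rfl⟩, _, ⟨r, le_refl r, rfl⟩, h.lm⟩
    (sa_s (h.sq m (le_refl m)) ⟨m, ⟨by omega, le_refl m⟩, rfl⟩)
    (sa_s h.so ⟨0, Nat.zero_le r, rfl⟩)
  · rw [disjoint_union_left, disjoint_union_right, disjoint_union_right]
    exact ⟨⟨h.pq.disj m1 m2 fun i (hi : i < _) (hj : i = _) => by omega, dq m1 y2⟩,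
      (dq m2 y1).symm, disjoint_left.2 fun v hv hv' => hn ⟨hv.1.conn hv'.2.symm,
        hv.2.conn hv'.2.symm, o x, ⟨x, hx, rfl⟩, u, Conn.refl _ _, hux⟩⟩
  · rw [disjoint_union_left]
    exact ⟨h.pq.disj m1 m3 fun i (hi : i < _) hj => by have := hj.1; omega, (dq m3 y1).symm⟩
  · rw [disjoint_union_left]
    exact ⟨h.pq.disj m2 m3 fun i (hi : i = _) hj => by have := hj.1; omega, (dq m3 y2).symm⟩

theorem ks_uniq (h : AH G W q m o r S t) {k k' : ℕ} (hkk : k < k') (hk' : k' ≤ m) {v v' : V}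
    (hv : v ∈ Ks G W q m (o '' Iic r) k k') (hv' : v' ∈ Ks G W q m (o '' Iic r) k k') :
    Conn G (W \ q '' Iic m) v v' := by
  by_contra hn
  have oo : ∀ i ∈ Iic r, i ≤ r := fun _ h => h
  have m1 : ∀ i ∈ ({k} : Set ℕ), i ≤ m := fun i (hi : i = k) => by omega
  have m2 : ∀ i ∈ ({k'} : Set ℕ), i ≤ m := fun i (hi : i = k') => by omega
  have y1 : {u | Conn G (W \ q '' Iic m) v u} ⊆ W \ q '' Iic m := fun u hu => Conn.mem hu hv.1.1
  have y2 : {u | Conn G (W \ q '' Iic m) v' u} ⊆ W \ q '' Iic m := fun u hu => Conn.mem hu hv'.1.1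
  have sa : ∀ {w : V} {a : ℕ}, A G W q m w a →
      SA G (q '' {a}) {u | Conn G (W \ q '' Iic m) w u} :=
    fun ⟨_, u, h1, h2⟩ => ⟨_, ⟨_, rfl, rfl⟩, u, h1, h2.symm⟩
  have so : ∀ {w : V}, (At G (W \ q '' Iic m) (o '' Iic r) w).Nonempty →
      SA G (o '' Iic r) {u | Conn G (W \ q '' Iic m) w u} :=
    fun ⟨x, hx, u, h1, h2⟩ => ⟨x, hx, u, h1, h2.symm⟩
  exact k33 h.mac (q '' {k}) (q '' {k'}) (o '' Iic r) {u | Conn G (W \ q '' Iic m) v u}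
    {u | Conn G (W \ q '' Iic m) v' u} S (h.pq.cn ordConnected_singleton m1)
    (h.pq.cn ordConnected_singleton m2) (cnO h) (cn_comp _ _) (cn_comp _ _) h.cS
    (h.pq.disj m1 m2 fun i (hi : i = k) (hj : i = k') => by omega) (dWo h (qW h m1) oo)
    (dWo h (qW h m2) oo) (disjoint_left.2 fun u h1 h2 => hn (Conn.trans h1 (Conn.symm h2)))
    (dWs h fun u hu => (y1 hu).1) (dWs h fun u hu => (y2 hu).1) (dq m1 y1) (dq m1 y2)
    (dWs h (qW h m1)) (dq m2 y1) (dq m2 y2) (dWs h (qW h m2))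
    (dWo h (fun u hu => (y1 hu).1) oo).symm (dWo h (fun u hu => (y2 hu).1) oo).symm (dos h oo)
    (sa hv.1) (sa hv'.1) (sa_s (h.sq k (by omega)) ⟨_, rfl, rfl⟩) (sa hv.2.1) (sa hv'.2.1)
    (sa_s (h.sq k' hk') ⟨_, rfl, rfl⟩) (so hv.2.2) (so hv'.2.2) (sa_s h.so ⟨0, Nat.zero_le r, rfl⟩)

omit [DecidableEq V] in
theorem transfer {O X X' P P' : Set V} {v : V} (h1 : X' \ P' ⊆ X \ P)
    (h2 : ∀ a ∈ X' \ P', ∀ b ∈ X \ P, G.Adj a b → b ∈ X' \ P') (hv : v ∈ X' \ P')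
    (h3 : ∀ u ∈ X' \ P', ∀ x ∈ P, G.Adj u x → x ∈ P') (h : Bn G S O t X' P' v) :
    Bn G S O t X P v := by
  have e : ∀ Y, At G (X \ P) Y v = At G (X' \ P') Y v := fun Y => At.closed h1 h2 hv
  have e1 : (At G (X \ P) P v).ncard ≤ (At G (X' \ P') P' v).ncard := by
    rw [e]
    exact ncard_le_ncard fun x ⟨hx, u, c, hu⟩ => ⟨h3 u (c.mem hv) x hx hu, u, c, hu⟩
  have e2 : tc G (X \ P) S v ≤ tc G (X' \ P') S v := tc_mono fun h => e S ▸ h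
  unfold Bn at h ⊢
  rw [e O]
  exact ⟨by omega, fun hv => by have := h.2 hv; omega⟩

/-- A component all of whose neighbours on `q` lie on `P`. -/
theorem rest (h : AH G W q m o r S t) {X P : Set V} (hX : X ⊆ W) (hP : P ⊆ W) {v : V}
    (hv : v ∈ W \ q '' Iic m) (h1 : ∀ u, Conn G (W \ q '' Iic m) v u → u ∉ P) {a b : ℕ}
    (ha : q a ∈ P) (hb : q b ∈ P) (h2 : ∀ j ≤ m, A G W q m v j → j = a ∨ j = b)
    (h3 : a = b ∨ ¬(At G (W \ q '' Iic m) (o '' Iic r) v).Nonempty) :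
    Bn G S (o '' Iic r) t X P v := by
  have key : ∀ u, Conn G (X \ P) v u → Conn G (W \ q '' Iic m) v u := fun u hu =>
    conn_ind _ hu (Conn.refl _ _) fun x _ y hy _ hxy ih => ih.trans (Conn.adj hxy (ih.mem hv)
      ⟨hX hy.1, by
        rintro ⟨j, hj, rfl⟩
        rcases h2 j hj ⟨hv, x, ih, hxy⟩ with rfl | rfl
        exacts [hy.2 ha, hy.2 hb]⟩)
  have e1 : At G (X \ P) P v ⊆ {q a, q b} := by
    rintro x ⟨hx, u, c, hu⟩
    by_cases hq : x ∈ q '' Iic m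
    · obtain ⟨j, hj, rfl⟩ := hq
      rcases h2 j hj ⟨hv, u, key u c, hu⟩ with rfl | rfl
      exacts [Or.inl rfl, Or.inr rfl]
    · exact (h1 x ((key u c).trans (Conn.adj hu ((key u c).mem hv) ⟨hP hx, hq⟩)) hx).elim
  have e2 : tc G (X \ P) S v = 0 := tc_neg fun ⟨x, hx, u, c, hu⟩ =>
    ((key u c).mem hv).2 (h.sS u ((key u c).mem hv).1 ⟨x, hx, u, rfl, hu.symm⟩)
  have e3 : At G (X \ P) (o '' Iic r) v ⊆ At G (W \ q '' Iic m) (o '' Iic r) v :=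
    fun x ⟨hx, u, c, hu⟩ => ⟨hx, u, key u c, hu⟩
  have e4 := ncard_le_ncard e3
  have e5 := ncard_le_ncard e1
  unfold Bn
  rw [e2]
  rcases h3 with rfl | h3
  · rw [pair_eq_singleton, ncard_singleton] at e5
    have := h.two v hv
    refine ⟨by omega, ?_⟩
    rintro rfl
    have := h.t1 hv
    omega
  · rw [not_nonempty_iff_eq_empty.1 h3, ncard_empty] at e4
    have := ncard_insert_le (q a) {q b}
    rw [ncard_singleton] at this
    exact ⟨by omega, fun _ => by omega⟩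

theorem rgW (h : AH G W q m o r S t) {O : Set V} {k k' : ℕ} (hk' : k' ≤ m) :
    Rg G W q m O k k' ⊆ W := by
  rintro _ (⟨i, hi, rfl⟩ | ⟨a, -, -, ha⟩ | hv)
  exacts [h.qW i (hi.2.trans hk'), ha.1.1, hv.1.1.1]

theorem rg_o (h : AH G W q m o r S t) {k k' x : ℕ} (hk' : k' ≤ m) (hl : Lk G W q m k k') {u : V}
    (hu : u ∈ Rg G W q m (o '' Iic r) k k') (h1 : u ≠ q k) (h2 : u ≠ q k') (hx : x ≤ r)
    (hux : G.Adj u (o x)) : u ∈ Ks G W q m (o '' Iic r) k k' := by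
  rcases hu with ⟨i, hi, rfl⟩ | ⟨a, h3, h4, ha⟩ | hv
  · exact only_ks h (lt_of_le_of_ne hi.1 fun e => h1 (e ▸ rfl))
      (lt_of_le_of_ne hi.2 fun e => h2 (e ▸ rfl)) hk' hl (Or.inl rfl) hx hux
  · exact only_ks h h3 h4 hk' hl (Or.inr ha) hx hux
  · exact hv

theorem frame (h : AH G W q m o r S t) {k k' : ℕ} (hkk : k < k') (hk' : k' ≤ m) {Z1 Z2 : Set V}
    (s1 : Z1 ⊆ q '' Iio k ∪ o '' Iic r ∪ q '' Ioc k' m)
    (s2 : Z2 ⊆ q '' Iio k ∪ o '' Iic r ∪ q '' Ioc k' m)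
    (d12 : Z1 = Z2 ∨ (Disjoint Z1 Z2 ∧ SA G Z1 Z2)) (c1 : Cn G Z1) (c2 : Cn G Z2)
    (q1 : q '' Iio k ⊆ Z1) (o1 : o 0 ∈ Z1) (q2 : q '' Ioc k' m ⊆ Z2) (o2 : o r ∈ Z2)
    (e2 : SA G S Z2) : Fr G (Rg G W q m (o '' Iic r) k k') (q k) (q k') S Z1 Z2 := by
  have m1 : ∀ i ∈ Iio k, i ≤ m := fun i (hi : i < k) => by omega
  have m2 : ∀ i ∈ Ioc k' m, i ≤ m := fun i hi => hi.2
  have m3 : ∀ i ∈ Icc k k', i ≤ m := fun i hi => hi.2.trans hk'
  have oo : ∀ i ∈ Iic r, i ≤ r := fun _ h => h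
  have y : {v | ∃ a, k < a ∧ a < k' ∧ A G W q m v a} ∪ Ks G W q m (o '' Iic r) k k' ⊆
      W \ q '' Iic m := by
    rintro v (⟨a, -, -, ha⟩ | hv)
    exacts [ha.1, hv.1.1]
  have d1 : Disjoint (q '' Iio k ∪ o '' Iic r ∪ q '' Ioc k' m) (Rg G W q m (o '' Iic r) k k') := by
    rw [disjoint_union_left, disjoint_union_left]
    refine ⟨⟨?_, (dWo h (rgW h hk') oo).symm⟩, ?_⟩ <;> rw [Rg, disjoint_union_right]
    · exact ⟨h.pq.disj m1 m3 fun i (hi : i < k) hj => by have := hj.1; omega, dq m1 y⟩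
    · exact ⟨h.pq.disj m2 m3 fun i hi hj => by have := hi.1; have := hj.2; omega, dq m2 y⟩
  have d2 : Disjoint S (q '' Iio k ∪ o '' Iic r ∪ q '' Ioc k' m) := by
    rw [disjoint_union_right, disjoint_union_right]
    exact ⟨⟨(dWs h (qW h m1)).symm, (dos h oo).symm⟩, (dWs h (qW h m2)).symm⟩
  refine ⟨h.mac, Or.inl ⟨k, ⟨le_refl k, hkk.le⟩, rfl⟩, Or.inl ⟨k', ⟨hkk.le, le_refl k'⟩, rfl⟩,
    fun e => hkk.ne (h.pq.inj k (by omega) k' hk' e),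
    h.pq.conn hkk.le hk' fun i h1 h2 => Or.inl ⟨i, ⟨h1, h2⟩, rfl⟩, (dWs h (rgW h hk')).symm,
    d1.mono_left s1, d1.mono_left s2, d2.mono_right s1, d2.mono_right s2, d12, h.cS, c1, c2,
    h.sq k (by omega), h.sq k' hk', ?_, ?_, (sa_s h.so o1).symm, e2⟩
  · rcases k with _ | k
    · exact ⟨_, o1, _, rfl, h.l0.symm⟩
    · exact sa_q h.pq (i := k) (by omega) (q1 ⟨k, Nat.lt_succ_self k, rfl⟩) rfl
  · rcases hk'.eq_or_lt with rfl | hlt
    · exact ⟨_, o2, _, rfl, h.lm.symm⟩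
    · exact (sa_q h.pq hlt (mem_singleton _)
        (q2 ⟨k' + 1, ⟨Nat.lt_succ_self k', hlt⟩, rfl⟩)).symm

theorem cn_l (h : AH G W q m o r S t) {k x : ℕ} (hk : k ≤ m) (hx : x ≤ r) :
    Cn G (q '' Iio k ∪ o '' Iic x) := by
  refine (h.pq.cn ordConnected_Iio fun i (hi : i < k) => by omega).union_or
    (h.po.cn ordConnected_Iic fun i (hi : i ≤ x) => by omega) ?_
  rcases k with _ | k
  · exact Or.inl (by simp)
  · exact Or.inr ⟨_, ⟨0, Nat.succ_pos k, rfl⟩, _, ⟨0, Nat.zero_le x, rfl⟩, h.l0⟩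

theorem cn_r (h : AH G W q m o r S t) {k : ℕ} {Y : Set V} (hY : Cn G Y) (ho : o r ∈ Y) :
    Cn G (Y ∪ q '' Ioc k m) := by
  rw [union_comm]
  refine (h.pq.cn ordConnected_Ioc fun i hi => hi.2).union_or hY ?_
  rcases le_or_gt m k with h1 | h1
  · exact Or.inl (by simp [h1])
  · exact Or.inr ⟨_, ⟨m, ⟨h1, le_refl m⟩, rfl⟩, _, ho, h.lm⟩

/-- If a spanning component has two outer attachments, the target is not under the link. -/
theorem t_out (h : AH G W q m o r S t) {k k' : ℕ} (hk : Ct G W q m k) (hkk : k < k')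
    (hk' : k' ≤ m) (hl : Lk G W q m k k') {v : V} (hv : v ∈ Ks G W q m (o '' Iic r) k k')
    (h2 : (At G (W \ q '' Iic m) (o '' Iic r) v).ncard = 2)
    (ht : t ∈ Rg G W q m (o '' Iic r) k k') (t1 : t ≠ q k) (t2 : t ≠ q k') : False := by
  classical
  have htW := rgW h hk' ht
  rcases h.t2 htW with ⟨hq, x, ⟨j, hj, rfl⟩, u, c, hu⟩ | h3
  · have hD : t ∈ W \ q '' Iic m := ⟨htW, hq⟩
    have huD := c.mem hD
    have hu' : u ∈ Rg G W q m (o '' Iic r) k k' := by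
      rcases ht with ⟨i, hi, rfl⟩ | ⟨a, h3, h4, ha⟩ | hv
      · exact (hq ⟨i, hi.2.trans hk', rfl⟩).elim
      · exact Or.inr (Or.inl ⟨a, h3, h4, ha.conn c⟩)
      · exact Or.inr (Or.inr (Ks.conn hv c))
    have := rg_o h hk' hl hu' (fun e => huD.2 ⟨k, show k ≤ m by omega, e.symm⟩)
      (fun e => huD.2 ⟨k', hk', e.symm⟩) hj hu
    have h4 := h.t1 hD
    rw [At.conn (c.trans (ks_uniq h hkk hk' this hv))] at h4
    omega
  · have loc : ∀ a ≤ m, A G W q m t a → Loc G W q m t a := fun a ha h =>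
      Or.inr ⟨h.1.2, ⟨a, ha, rfl⟩, h.2⟩
    have key : ∃ a, a < k' ∧ Loc G W q m t a ∧ ∀ i < k, ¬Loc G W q m t i := by
      have aux : ∀ b, k < b → b ≤ m → A G W q m t b → ∀ i < k, ¬Loc G W q m t i := by
        rintro b h1 h2 hb i hi (e | ⟨-, -, hh⟩)
        · exact hb.1.2 ⟨i, show i ≤ m by omega, e.symm⟩
        · exact hk i b hi h1 h2 (Or.inr ⟨t, ⟨hb.1, hh⟩, hb⟩)
      rcases ht with ⟨i, hi, rfl⟩ | ⟨a, h3, h4, ha⟩ | hv
      · refine ⟨i, lt_of_le_of_ne hi.2 fun e => t2 (e ▸ rfl), Or.inl rfl, ?_⟩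
        rintro j hj (e | ⟨hh, -⟩)
        · have := h.pq.inj i (hi.2.trans hk') j (by omega) e
          have := hi.1
          omega
        · exact hh ⟨i, hi.2.trans hk', rfl⟩
      · exact ⟨a, h4, loc a (by omega) ha, aux a h3 (by omega) ha⟩
      · exact ⟨k, hkk, loc k (by omega) hv.1, aux k' hkk hk' hv.2.1⟩
    obtain ⟨a, ha, hloc, hmin⟩ := key
    have hex : ∃ i, Loc G W q m t i := ⟨a, hloc⟩
    have i1 : Nat.find hex ≤ a := Nat.find_min' hex hloc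
    have i2 : k ≤ Nat.find hex := not_lt.1 fun hlt => hmin _ hlt (Nat.find_spec hex)
    have := h3 (Nat.find hex) (by omega) (Nat.find_spec hex) (fun i hi => Nat.find_min hex hi) v
      hv.1.1 ⟨q k, ⟨k, i2, rfl⟩, hv.1.2⟩ ⟨q k', ⟨k', ⟨by omega, hk'⟩, rfl⟩, hv.2.1.2⟩
    omega

/-- The path under one link. -/
theorem region {n : ℕ} (ih : TP V n) (hn : W.ncard < n) (h : AH G W q m o r S t) {k k' : ℕ}
    (hk : Ct G W q m k) (hkk : k < k') (hk' : k' ≤ m) (hl : Lk G W q m k k') :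
    ∃ P ⊆ Rg G W q m (o '' Iic r) k k', HP G P (q k) (q k') ∧
      ∀ v ∈ Rg G W q m (o '' Iic r) k k' \ P,
        Bn G S (o '' Iic r) t (Rg G W q m (o '' Iic r) k k') P v := by
  set R := Rg G W q m (o '' Iic r) k k' with hR
  have hRn : R.ncard < n := (ncard_le_ncard (rgW h hk')).trans_lt hn
  have key : ∀ P, HP G P (q k) (q k') → ∀ v ∈ R \ P, ∀ x ∈ At G (R \ P) (o '' Iic r) v,
      ∃ u ∈ Ks G W q m (o '' Iic r) k k', x ∈ At G (W \ q '' Iic m) (o '' Iic r) u := by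
    rintro P hP v hv _ ⟨⟨j, hj, rfl⟩, u, c, hu⟩
    have h1 := c.mem hv
    exact ⟨u, rg_o h hk' hl h1.1 (fun e => h1.2 (e ▸ hP.left)) (fun e => h1.2 (e ▸ hP.right)) hj hu,
      ⟨j, hj, rfl⟩, u, Conn.refl _ _, hu⟩
  by_cases h2 : ∃ v ∈ Ks G W q m (o '' Iic r) k k',
      (At G (W \ q '' Iic m) (o '' Iic r) v).ncard = 2
  · obtain ⟨w, hw, h2⟩ := h2
    obtain ⟨x, y, hxy, hy, hs⟩ : ∃ x y, x < y ∧ y ≤ r ∧
        At G (W \ q '' Iic m) (o '' Iic r) w = {o x, o y} := by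
      obtain ⟨a, b, hab, hs⟩ := ncard_eq_two.1 h2
      obtain ⟨x, hx, rfl⟩ : a ∈ o '' Iic r := At.sub (hs.ge (Or.inl rfl))
      obtain ⟨y, hy, rfl⟩ : b ∈ o '' Iic r := At.sub (hs.ge (Or.inr rfl))
      rcases lt_trichotomy x y with h1 | rfl | h1
      · exact ⟨x, y, h1, hy, hs⟩
      · exact absurd rfl hab
      · exact ⟨y, x, h1, hx, hs.trans (pair_comm _ _)⟩
    have dis : Disjoint (q '' Iio k ∪ o '' Iic x) (o '' Ioc x r ∪ q '' Ioc k' m) := by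
      have m1 : ∀ i ∈ Iio k, i ≤ m := fun i (hi : i < k) => by omega
      have m2 : ∀ i ∈ Ioc k' m, i ≤ m := fun i hi => hi.2
      have o1 : ∀ i ∈ Iic x, i ≤ r := fun i (hi : i ≤ x) => by omega
      have o2 : ∀ i ∈ Ioc x r, i ≤ r := fun i hi => hi.2
      rw [disjoint_union_left, disjoint_union_right, disjoint_union_right]
      exact ⟨⟨dWo h (qW h m1) o2, h.pq.disj m1 m2 fun i (hi : i < k) hj => by
          have := hj.1; omega⟩,
        h.po.disj o1 o2 fun i (hi : i ≤ x) hj => by have := hj.1; omega, (dWo h (qW h m2) o1).symm⟩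
    have hr : o r ∈ o '' Ioc x r := ⟨r, ⟨by omega, le_refl r⟩, rfl⟩
    obtain ⟨P, hP, hp, hb⟩ := ih G R (q k) (q k') S (q '' Iio k ∪ o '' Iic x)
      (o '' Ioc x r ∪ q '' Ioc k' m) (o 0) hRn
      (frame h hkk hk'
        ((union_subset_union_right _ (image_mono fun i (hi : i ≤ x) => show i ≤ r by omega)).trans
          subset_union_left)
        (union_subset_union_left _ ((image_mono fun i hi => hi.2).trans subset_union_right))
        (Or.inr ⟨dis, sa_q h.po (i := x) (by omega) (Or.inr ⟨x, le_refl x, rfl⟩)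
          (Or.inl ⟨x + 1, ⟨Nat.lt_succ_self x, by omega⟩, rfl⟩)⟩)
        (cn_l h (by omega) (by omega)) (cn_r h (h.po.cn ordConnected_Ioc fun i hi => hi.2) hr)
        subset_union_left (Or.inr ⟨0, Nat.zero_le x, rfl⟩) subset_union_right (Or.inl hr) (by
          rcases hk'.eq_or_lt with rfl | hlt
          · obtain ⟨z, z1, z2, z3⟩ := h.rt w hw.1.1 ⟨⟨k', le_refl k', rfl⟩, hw.2.1.2⟩ x y hxy hy
              (hs ▸ Or.inl rfl) (hs ▸ Or.inr rfl)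
            exact (sa_s z3 (Or.inl ⟨z, ⟨z1, z2⟩, rfl⟩)).symm
          · exact (sa_s (h.sq m (le_refl m)) (Or.inr ⟨m, ⟨hlt, le_refl m⟩, rfl⟩)).symm))
      (Or.inl fun hh => h.oW 0 (Nat.zero_le r) (rgW h hk' hh))
    refine ⟨P, hP, hp, fun v hv => ⟨?_, ?_⟩⟩
    · have h3 := (hb v hv).1
      have h4 : At G (R \ P) (o '' Iic r) v ⊆ At G (R \ P) {o x} v ∪ At G (R \ P) {o y} v := by
        intro z hz
        obtain ⟨u, hu, h5⟩ := key P hp v hv z hz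
        rw [At.conn (ks_uniq h hkk hk' hu hw), hs] at h5
        exact h5.imp (fun e => ⟨e, hz.2⟩) fun e => ⟨e, hz.2⟩
      have h5 := (ncard_le_ncard h4).trans (ncard_union_le _ _)
      rw [← tc_single, ← tc_single] at h5
      have h6 : tc G (R \ P) {o x} v ≤ tc G (R \ P) (q '' Iio k ∪ o '' Iic x) v :=
        tc_mono fun hh => hh.mono (At.mono Subset.rfl
          (singleton_subset_iff.2 (Or.inr ⟨x, le_refl x, rfl⟩)))
      have hy' : o y ∈ o '' Ioc x r ∪ q '' Ioc k' m := Or.inl ⟨y, ⟨hxy, hy⟩, rfl⟩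
      have h7 : tc G (R \ P) {o y} v ≤
          tc G (R \ P) ((o '' Ioc x r ∪ q '' Ioc k' m) \ (q '' Iio k ∪ o '' Iic x)) v :=
        tc_mono fun hh => hh.mono (At.mono Subset.rfl
          (singleton_subset_iff.2 ⟨hy', disjoint_right.1 dis hy'⟩))
      unfold cnt at h3
      omega
    · rintro rfl
      exact (t_out h hk hkk hk' hl hw h2 hv.1 (fun e => hv.2 (e ▸ hp.left))
        fun e => hv.2 (e ▸ hp.right)).elim
  · have hr : o r ∈ q '' Iio k ∪ o '' Iic r := Or.inr ⟨r, le_refl r, rfl⟩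
    have h0 : o 0 ∈ q '' Iio k ∪ o '' Iic r ∪ q '' Ioc k' m :=
      Or.inl (Or.inr ⟨0, Nat.zero_le r, rfl⟩)
    have cz := cn_r h (k := k') (cn_l h (k := k) (by omega) (le_refl r)) hr
    obtain ⟨P, hP, hp, hb⟩ := ih G R (q k) (q k') S _ _ t hRn
      (frame h hkk hk' Subset.rfl Subset.rfl (Or.inl rfl) cz cz
        (subset_union_left.trans subset_union_left) h0 subset_union_right (Or.inl hr)
        (sa_s h.so h0).symm) (Or.inr (Or.inl rfl))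
    refine ⟨P, hP, hp, fun v hv => ?_⟩
    obtain ⟨h3, h4⟩ := hb v hv
    have h5 : (At G (R \ P) (o '' Iic r) v).ncard ≤
        tc G (R \ P) (q '' Iio k ∪ o '' Iic r ∪ q '' Ioc k' m) v := by
      rcases (At G (R \ P) (o '' Iic r) v).eq_empty_or_nonempty with e | ⟨z, hz⟩
      · rw [e, ncard_empty]
        exact Nat.zero_le _
      · rw [tc_pos ⟨z, At.mono Subset.rfl (subset_union_right.trans subset_union_left) hz⟩]
        obtain ⟨w, hw, -⟩ := key P hp v hv z hz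
        have h6 : At G (R \ P) (o '' Iic r) v ⊆ At G (W \ q '' Iic m) (o '' Iic r) w := by
          intro z' hz'
          obtain ⟨u, hu, h5⟩ := key P hp v hv z' hz'
          rwa [At.conn (ks_uniq h hkk hk' hu hw)] at h5
        have h7 := ncard_le_ncard h6
        have h8 := h.two w hw.1.1
        have h9 : (At G (W \ q '' Iic m) (o '' Iic r) w).ncard ≠ 2 := fun e => h2 ⟨w, hw, e⟩
        omega
    unfold cnt at h3 h4
    refine ⟨by omega, fun e => ?_⟩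
    rcases h4 e with h4 | h4
    · omega
    · have h6 : tc G (R \ P) S v = 0 := tc_neg fun ⟨z, hz, u, c, hu⟩ => by
        have h7 := c.mem hv
        obtain ⟨i, hi, rfl⟩ := h.sS u (rgW h hk' h7.1) ⟨z, hz, u, rfl, hu.symm⟩
        have h8 : k ≤ i ∧ i ≤ k' := by
          rcases h7.1 with hh | ⟨a, -, -, ha⟩ | hh
          · exact (h.pq.mem (fun j hj => hj.2.trans hk') hi).1 hh
          · exact (ha.1.2 ⟨i, hi, rfl⟩).elim
          · exact (hh.1.1.2 ⟨i, hi, rfl⟩).elim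
        obtain ⟨x, y, -, x2, y1, y2, a1, a2⟩ := h.pq.two_att (U := R) h8.1 h8.2 hk'
          (fun j j1 j2 => Or.inl ⟨j, ⟨j1, j2⟩, rfl⟩) hp.left hp.right h7.2
        rw [At.conn c] at h4
        have := h.pq.inj x (by omega) y (by omega) ((ncard_le_one_iff (toFinite _)).1 h4 a1 a2)
        omega
      have := tc_le (G := G) (W := R \ P) (Z := q '' Iio k ∪ o '' Iic r ∪ q '' Ioc k' m) (v := v)
      omega

theorem wkW (h : AH G W q m o r S t) {k : ℕ} : Wk G W q m k ⊆ W := by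
  rintro _ (⟨i, hi, rfl⟩ | ⟨a, -, -, ha⟩)
  exacts [h.qW i hi.2, ha.1.1]

omit [Fintype V] [DecidableEq V] in
/-- No edge joins the two sides of a cut. -/
theorem lo_hi {k a b : ℕ} (hk : Ct G W q m k) (ha : a < k) (hb : k < b) (hm : b ≤ m) {x y : V}
    (hx : x = q a ∨ A G W q m x a) (hy : y = q b ∨ A G W q m y b) : ¬G.Adj x y := by
  intro hxy
  refine hk a b ha hb hm ?_
  rcases hx with rfl | hx <;> rcases hy with rfl | hy
  · exact Or.inl hxy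
  · exact Or.inr ⟨y, A.of_adj hy.1 hxy.symm, hy⟩
  · exact Or.inr ⟨x, hx, A.of_adj hx.1 hxy⟩
  · exact Or.inr ⟨y, hx.step hy.1 hxy, hy⟩

theorem step {n : ℕ} (ih : TP V n) (hn : W.ncard < n) (h : AH G W q m o r S t) {k k' : ℕ}
    (hk : Ct G W q m k) (hk2 : Ct G W q m k') (hkk : k < k') (hk' : k' ≤ m)
    (hl : Lk G W q m k k') {P' : Set V} (hP' : P' ⊆ Wk G W q m k') (hp' : HP G P' (q k') (q m))
    (hb' : ∀ v ∈ Wk G W q m k' \ P', Bn G S (o '' Iic r) t (Wk G W q m k') P' v) :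
    ∃ P ⊆ Wk G W q m k, HP G P (q k) (q m) ∧
      ∀ v ∈ Wk G W q m k \ P, Bn G S (o '' Iic r) t (Wk G W q m k) P v := by
  obtain ⟨P, hP, hp, hb⟩ := region ih hn h hk hkk hk' hl
  set R := Rg G W q m (o '' Iic r) k k' with hR
  have lo : ∀ x ∈ R, x ≠ q k' → ∃ a, a < k' ∧ (x = q a ∨ A G W q m x a) := by
    rintro _ (⟨i, hi, rfl⟩ | ⟨a, -, h1, ha⟩ | hv) hx
    · exact ⟨i, lt_of_le_of_ne hi.2 fun e => hx (e ▸ rfl), Or.inl rfl⟩
    · exact ⟨a, h1, Or.inr ha⟩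
    · exact ⟨k, hkk, Or.inr hv.1⟩
  have hi : ∀ x ∈ Wk G W q m k', x ≠ q k' →
      ∃ b, k' < b ∧ b ≤ m ∧ (x = q b ∨ A G W q m x b) := by
    rintro _ (⟨i, hi, rfl⟩ | ⟨a, h1, h2, ha⟩) hx
    · exact ⟨i, lt_of_le_of_ne hi.1 fun e => hx (e ▸ rfl), hi.2, Or.inl rfl⟩
    · exact ⟨a, h1, h2, Or.inr ha⟩
  have nadj : ∀ x ∈ R, x ≠ q k' → ∀ y ∈ Wk G W q m k', y ≠ q k' → ¬G.Adj x y := by
    intro x hx hx' y hy hy'
    obtain ⟨a, a1, a2⟩ := lo x hx hx'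
    obtain ⟨b, b1, b2, b3⟩ := hi y hy hy'
    exact lo_hi hk2 a1 b1 b2 a2 b3
  have meet : ∀ x ∈ R, x ∈ Wk G W q m k' → x = q k' := by
    intro x hx hy
    by_contra hn
    obtain ⟨a, a1, a2⟩ := lo x hx hn
    obtain ⟨b, b1, b2, b3⟩ := hi x hy hn
    rcases a2 with a2 | a2 <;> rcases b3 with b3 | b3
    · have := h.pq.inj a (by omega) b b2 (a2.symm.trans b3)
      omega
    · exact b3.1.2 ⟨a, show a ≤ m by omega, a2.symm⟩
    · exact a2.1.2 ⟨b, b2, b3.symm⟩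
    · exact hk2 a b a1 b1 b2 (Or.inr ⟨x, a2, b3⟩)
  have s1 : R ⊆ Wk G W q m k := by
    rintro _ (⟨i, hi, rfl⟩ | ⟨a, h1, h2, ha⟩ | hv)
    · exact Or.inl ⟨i, ⟨hi.1, hi.2.trans hk'⟩, rfl⟩
    · exact Or.inr ⟨a, h1, by omega, ha⟩
    · exact Or.inr ⟨k', hkk, hk', hv.2.1⟩
  have s2 : Wk G W q m k' ⊆ Wk G W q m k := by
    rintro _ (⟨i, hi, rfl⟩ | ⟨a, h1, h2, ha⟩)
    · exact Or.inl ⟨i, ⟨hkk.le.trans hi.1, hi.2⟩, rfl⟩
    · exact Or.inr ⟨a, by omega, h2, ha⟩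
  refine ⟨P ∪ P', union_subset (hP.trans s1) (hP'.trans s2),
    hp.cat hp' fun x h1 h2 => meet x (hP h1) (hP' h2), fun v hv => ?_⟩
  by_cases h1 : v ∈ R
  · have hv' : v ∈ R \ P := ⟨h1, fun e => hv.2 (Or.inl e)⟩
    refine transfer (fun x hx => ⟨s1 hx.1, fun e => e.elim hx.2 fun e =>
      hx.2 (meet x hx.1 (hP' e) ▸ hp.right)⟩) (fun x hx y hy hxy => ⟨?_, fun e => hy.2 (Or.inl e)⟩)
      hv' (fun u hu x hx hux => hx.elim id fun e => ?_) (hb v hv')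
    · have hx' : x ≠ q k' := fun e => hx.2 (e ▸ hp.right)
      rcases hy.1 with ⟨j, hj, rfl⟩ | ⟨b, -, -, hb⟩
      · refine Or.inl ⟨j, ⟨hj.1, not_lt.1 fun hlt => ?_⟩, rfl⟩
        obtain ⟨a, a1, a2⟩ := lo x hx.1 hx'
        exact lo_hi hk2 a1 hlt hj.2 a2 (Or.inl rfl) hxy
      · rcases hx.1 with ⟨i, hi, rfl⟩ | ⟨a, a1, a2, ha⟩ | hh
        · exact Or.inr (Or.inl ⟨i, lt_of_le_of_ne hi.1 fun e => hx.2 (e ▸ hp.left),
            lt_of_le_of_ne hi.2 fun e => hx' (e ▸ rfl), A.of_adj hb.1 hxy.symm⟩)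
        · exact Or.inr (Or.inl ⟨a, a1, a2, ha.step hb.1 hxy⟩)
        · exact Or.inr (Or.inr (Ks.conn hh (Conn.adj hxy hh.1.1 hb.1)))
    · by_contra hn
      exact nadj u hu.1 (fun e => hu.2 (e ▸ hp.right)) x (hP' e) (fun e => hn (e ▸ hp.right)) hux
  by_cases h2 : v ∈ Wk G W q m k'
  · have hv' : v ∈ Wk G W q m k' \ P' := ⟨h2, fun e => hv.2 (Or.inr e)⟩
    refine transfer (fun x hx => ⟨s2 hx.1, fun e => e.elim (fun e =>
      hx.2 (meet x (hP e) hx.1 ▸ hp'.left)) hx.2⟩)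
      (fun x hx y hy hxy => ⟨?_, fun e => hy.2 (Or.inr e)⟩)
      hv' (fun u hu x hx hux => hx.elim (fun e => ?_) id) (hb' v hv')
    · obtain ⟨b, b1, b2, b3⟩ := hi x hx.1 fun e => hx.2 (e ▸ hp'.left)
      rcases hy.1 with ⟨j, hj, rfl⟩ | ⟨c, -, -, hc⟩
      · exact Or.inl ⟨j, ⟨not_lt.1 fun hlt => lo_hi hk2 hlt b1 b2 (Or.inl rfl) b3 hxy.symm,
          hj.2⟩, rfl⟩
      · exact Or.inr ⟨b, b1, b2, b3.elim (fun e => A.of_adj hc.1 (e ▸ hxy.symm))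
          fun e => e.step hc.1 hxy⟩
    · by_contra hn
      exact nadj x (hP e) (fun e => hn (e ▸ hp'.left)) u hu.1 (fun e => hu.2 (e ▸ hp'.left))
        hux.symm
  obtain ⟨b, b1, b2, b3⟩ : ∃ b, k < b ∧ b ≤ m ∧ A G W q m v b := by
    rcases hv.1 with ⟨j, hj, rfl⟩ | hh
    · rcases le_total j k' with e | e
      · exact (h1 (Or.inl ⟨j, ⟨hj.1, e⟩, rfl⟩)).elim
      · exact (h2 (Or.inl ⟨j, ⟨e, hj.2⟩, rfl⟩)).elim
    · exact hh
  have h3 : ∀ j ≤ m, A G W q m v j → j = k ∨ j = k' := by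
    intro j hj hA
    by_contra hn
    rcases lt_trichotomy j k with e | e | e
    · exact hk j b e b1 b2 (Or.inr ⟨v, hA, b3⟩)
    · exact hn (Or.inl e)
    · rcases lt_trichotomy j k' with e' | e' | e'
      · exact h1 (Or.inr (Or.inl ⟨j, e, e', hA⟩))
      · exact hn (Or.inr e')
      · exact h2 (Or.inr ⟨j, e', hj, hA⟩)
  have h4 : ∀ u, Conn G (W \ q '' Iic m) v u → u ∉ P ∪ P' := by
    rintro u c (e | e)
    · rcases hP e with ⟨i, hi, rfl⟩ | ⟨a, a1, a2, ha⟩ | hh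
      · exact (c.mem b3.1).2 ⟨i, hi.2.trans hk', rfl⟩
      · exact h1 (Or.inr (Or.inl ⟨a, a1, a2, ha.conn c.symm⟩))
      · exact h1 (Or.inr (Or.inr (Ks.conn hh c.symm)))
    · rcases hP' e with ⟨i, hi, rfl⟩ | ⟨a, a1, a2, ha⟩
      · exact (c.mem b3.1).2 ⟨i, hi.2, rfl⟩
      · exact h2 (Or.inr ⟨a, a1, a2, ha.conn c.symm⟩)
  have hW : P ∪ P' ⊆ W := union_subset (hP.trans (rgW h hk')) (hP'.trans (wkW h))
  obtain rfl : b = k' := (h3 b b2 b3).resolve_left b1.ne'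
  by_cases h5 : A G W q m v k
  · exact rest h (wkW h) hW b3.1 h4 (Or.inl hp.left) (Or.inl hp.right) h3
      (Or.inr fun e => h1 (Or.inr (Or.inr ⟨h5, b3, e⟩)))
  · exact rest h (wkW h) hW b3.1 h4 (Or.inl hp.right) (Or.inl hp.right)
      (fun j hj hA => Or.inl ((h3 j hj hA).resolve_left fun e => h5 (e ▸ hA))) (Or.inl rfl)

theorem main {n : ℕ} (ih : TP V n) (hn : W.ncard < n) (h : AH G W q m o r S t) (d : ℕ) :
    ∀ k, k ≤ m → m - k ≤ d → Ct G W q m k → ∃ P ⊆ Wk G W q m k, HP G P (q k) (q m) ∧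
      ∀ v ∈ Wk G W q m k \ P, Bn G S (o '' Iic r) t (Wk G W q m k) P v := by
  classical
  induction d with
  | zero =>
    intro k h1 h2 _
    obtain rfl : k = m := by omega
    refine ⟨{q k}, singleton_subset_iff.2 (Or.inl ⟨k, ⟨le_refl k, le_refl k⟩, rfl⟩),
      hp_single _, ?_⟩
    rintro _ ⟨⟨i, hi, rfl⟩ | ⟨b, b1, b2, -⟩, hv⟩
    · exact (hv (le_antisymm hi.2 hi.1 ▸ rfl)).elim
    · omega
  | succ d ihd =>
    intro k h1 h2 hk
    by_cases h3 : m - k ≤ d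
    · exact ihd k h1 h3 hk
    have l1 : Lk G W q m k (k + 1) := Or.inl (h.pq.adj k (by omega))
    have h4 : k + 1 ≤ Nat.findGreatest (Lk G W q m k) m := Nat.le_findGreatest (by omega) l1
    have h5 : Lk G W q m k (Nat.findGreatest (Lk G W q m k) m) :=
      Nat.findGreatest_spec (show k + 1 ≤ m by omega) l1
    have h6 := ct_next h hk h4 h5 fun b b1 b2 => Nat.findGreatest_is_greatest b1 b2
    have h7 : Nat.findGreatest (Lk G W q m k) m ≤ m := Nat.findGreatest_le m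
    obtain ⟨P', h8, h9, h10⟩ := ihd _ h7 (by omega) h6
    exact step ih hn h hk h6 h4 h7 h5 h8 h9 h10

end ALx

open ALx in
theorem al : StmtAL := by
  intro V _ _ G W q m o r S t n ih hn h
  obtain ⟨P, hP, hp, hb⟩ := main ih hn h m 0 (Nat.zero_le m) (Nat.sub_le m 0)
    fun a _ ha => absurd ha (Nat.not_lt_zero a)
  refine ⟨P, hP.trans (wkW h), hp, fun v hv => ?_⟩
  by_cases h1 : v ∈ ALx.Wk G W q m 0
  · refine transfer (fun x hx => ⟨wkW h hx.1, hx.2⟩) (fun x hx y hy hxy => ⟨?_, hy.2⟩) ⟨h1, hv.2⟩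
      (fun _ _ _ hx _ => hx) (hb v ⟨h1, hv.2⟩)
    by_cases h2 : y ∈ q '' Iic m
    · obtain ⟨j, hj, rfl⟩ := h2
      exact Or.inl ⟨j, ⟨Nat.zero_le j, hj⟩, rfl⟩
    · rcases hx.1 with ⟨i, hi, rfl⟩ | ⟨a, a1, a2, ha⟩
      · exact Or.inr ⟨i, Nat.pos_of_ne_zero fun e => hx.2 (e ▸ hp.left), hi.2,
          A.of_adj ⟨hy.1, h2⟩ hxy.symm⟩
      · exact Or.inr ⟨a, a1, a2, ha.step ⟨hy.1, h2⟩ hxy⟩
  · have hD : v ∈ W \ q '' Iic m :=
      ⟨hv.1, fun ⟨j, hj, e⟩ => h1 (Or.inl ⟨j, ⟨Nat.zero_le j, hj⟩, e⟩)⟩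
    refine rest h Subset.rfl (hP.trans (wkW h)) hD (fun u c e => ?_) hp.left hp.left
      (fun j hj hA => Or.inl (Nat.eq_zero_of_not_pos fun e => h1 (Or.inr ⟨j, e, hj, hA⟩)))
      (Or.inl rfl)
    rcases hP e with ⟨i, hi, rfl⟩ | ⟨a, a1, a2, ha⟩
    · exact (c.mem hD).2 ⟨i, hi.2, rfl⟩
    · exact h1 (Or.inr ⟨a, a1, a2, ha.conn c.symm⟩)

end Pool.Agent.MP_856573_co.H74
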