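import Pool.Agent.MP_856573_co.H90.Defs
import Pool.Agent.MP_31805c_co.H47.Top
import Pool.Agent.MP_31805c_co.H47.Glue
import Pool.Agent.MP_31805c_co.H47.MinorMac

/-! Graphs drawn in the real plane have the property of Mac Lane. -/

namespace Pool.Agent.MP_856573_co.H47

open Set
open Pool.Agent.MP_31805c_co

theorem planar_of_H90 {V : Type} {G : SimpleGraph V} (h : H90.IsPlanar G) : H93.IsPlanar G := by
  obtain ⟨pos, γ, h1, h2, h3, h4⟩ := h
  let e : ℝ × ℝ → ℂ := Complex.equivRealProdCLM.symm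
  have he : Function.Injective e := Complex.equivRealProdCLM.symm.injective
  have hc : Continuous e := Complex.equivRealProdCLM.symm.continuous
  refine ⟨e ∘ pos, fun u v => e ∘ γ u v, he.comp h2, fun u v huv => ?_, fun u v w huv hw => ?_,
    fun u v u' v' huv huv' hne p hp hp' => ?_⟩
  · obtain ⟨a, b, c, d, f⟩ := h1 u v huv
    refine ⟨hc.comp_continuousOn a, he.injOn.comp b (mapsTo_univ _ _), congrArg e c,
      congrArg e d, ?_⟩
    rw [image_comp, image_comp, f]
  · obtain ⟨t, ht, hw⟩ := hw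
    exact h3 u v w huv ⟨t, ht, he hw⟩
  · obtain ⟨t, ht, rfl⟩ := hp
    obtain ⟨t', ht', hp'⟩ := hp'
    obtain ⟨w, a, b, c⟩ := h4 u v u' v' huv huv' hne _ ⟨t, ht, rfl⟩ ⟨t', ht', he hp'⟩
    exact ⟨w, a, b, congrArg e c⟩

theorem mac_of_H90 {V : Type} [Fintype V] [DecidableEq V] {G : SimpleGraph V}
    (h : H90.IsPlanar G) : H47.Mac G := by
  obtain ⟨n, hn⟩ := H47.top V G (planar_of_H90 h)
  exact H47.minorMac _ V (H47.grid n) G (H47.gridMac n) hn

end Pool.Agent.MP_856573_co.H47
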