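import Pool.Agent.MP_856573_co.H74.Bas
import Pool.Agent.MP_31805c_co.H47.MaxTri

/-! Row TRI: the graph induced on `D` extends to a triangulation of `D`. -/

namespace Pool.Agent.MP_856573_co.H74

open Finset
open Pool.Agent.MP_31805c_co.H47 (Mac maxTri)
open Pool.Agent.MP_31805c_co.H93 (Conn)

theorem tri : StmtTRI := by
  intro V _ _ G D hG hD
  let e : {x // x ∈ D} ↪ V := Function.Embedding.subtype _
  have hM : Mac (G.comap e) := mac_minor hG (fun w => {e w})
    (fun _ _ h => Set.disjoint_singleton.2 fun h' => h (e.injective h'))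
    (fun _ => cn_single _) fun _ _ h => sa_single.2 h
  obtain ⟨H, hle, -, F, hF⟩ := maxTri _ hM (by simpa using hD)
  have hadj : ∀ a b, (H.map e).Adj (e a) (e b) ↔ H.Adj a b := fun a b =>
    SimpleGraph.map_adj_apply
  have hinj : Function.Injective fun f : Finset {x // x ∈ D} => f.map e := map_injective e
  have h3 : ∀ a b c : {x // x ∈ D}, ({a, b, c} : Finset _).map e = {e a, e b, e c} := by
    intro a b c
    simp only [map_insert, map_singleton]
  have hsub : ∀ (f : Finset {x // x ∈ D}) x, x ∈ f.map e → ∃ a ∈ f, e a = x := fun f x h =>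
    mem_map.1 h
  refine ⟨H.map e, F.image fun f => f.map e, fun u v h => ?_, fun f hf => ?_,
    fun u hu v hv huv => ?_, fun v X hX f hf f' hf' hv hv' hfX => ?_, fun x hx y hy => ?_, hD,
    fun a ha => ?_⟩
  · exact (hadj ⟨u, h.2.1⟩ ⟨v, h.2.2⟩).2 (hle h.1)
  · obtain ⟨g, hg, rfl⟩ := mem_image.1 hf
    obtain ⟨a, b, c, ht, rfl⟩ := hF.tri g hg
    refine ⟨fun x hx => ?_, ?_⟩
    · obtain ⟨y, -, rfl⟩ := hsub _ x hx
      exact y.2
    · rw [h3, SimpleGraph.is3Clique_triple_iff]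
      exact ⟨(hadj _ _).2 ht.1, (hadj _ _).2 ht.2.1, (hadj _ _).2 ht.2.2⟩
  · rw [filter_image, card_image_of_injective _ hinj,
      ← hF.two ⟨u, hu⟩ ⟨v, hv⟩ ((hadj ⟨u, hu⟩ ⟨v, hv⟩).1 huv)]
    congr 1
    refine filter_congr fun f _ => ?_
    exact and_congr (mem_map' e (a := ⟨u, hu⟩)) (mem_map' e (a := ⟨v, hv⟩))
  · obtain ⟨g, hg, rfl⟩ := mem_image.1 hf
    obtain ⟨g', hg', rfl⟩ := mem_image.1 hf'
    obtain ⟨w, hw, rfl⟩ := hsub _ v hv
    refine hF.lc w {k | k.map e ∈ X} (fun k hk hkF hwk k' hk' hwk' z hz h1 h2 => ?_) g hfX hg hw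
      g' hg' ((mem_map' e).1 hv')
    exact hX _ hk _ (mem_image_of_mem _ hk') (mem_image_of_mem _ hkF) ((mem_map' e).2 hwk)
      ((mem_map' e).2 hwk') ⟨e z, fun h => hz (e.injective h), (mem_map' e).2 h1, (mem_map' e).2 h2⟩
  · have key : ∀ a b : {x // x ∈ D}, Relation.ReflTransGen H.Adj a b →
        Conn (H.map e) D (e a) (e b) := by
      intro a b h
      induction h with
      | refl => exact Conn.refl _ _
      | @tail b c _ h ih => exact ih.trans (Conn.adj ((hadj _ _).2 h) b.2 c.2)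
    exact key ⟨x, hx⟩ ⟨y, hy⟩ ((SimpleGraph.reachable_iff_reflTransGen _ _).1 (hF.conn _ _))
  · obtain ⟨p, hp⟩ := hF.span (fun s => a (s.map e)) fun u v w _ h =>
      ha (e u) (e v) (e w) (h3 u v w ▸ mem_image_of_mem _ h)
    refine ⟨fun x => if h : x ∈ D then p ⟨x, h⟩ else 0, fun u hu v hv huv => ?_⟩
    simp only [dif_pos hu, dif_pos hv]
    exact hp ⟨u, hu⟩ ⟨v, hv⟩ ((hadj ⟨u, hu⟩ ⟨v, hv⟩).1 huv)

end Pool.Agent.MP_856573_co.H74
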